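import Mathlib
import Pool.Agent.Results.MP_401231_co.NoEvenSubdivisionL

/-!
# Q2: complements of 2-subdivisions are `B₁`-VPG graphs

For every finite graph `G` (planar or not) let `G'` be the graph obtained by replacing every edge of
`G` by a path with two inner vertices. The complement of `G'` has a `B₁`-VPG representation.

The original vertices are drawn as the shapes `˥` (corner at the upper right) with corners
`(N + 2 j, N - 2 j)`, and the two inner vertices of an edge as two shapes `L` (corner at the lower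
left) with corners `(3 k, -3 k)` and `(3 k + 1, -3 k + 1)`, which are disjoint; any two other shapes
of the same kind cross. The arms of an `L` end at abscissa `N + 2 j - 1` and ordinate
`N - 2 j - 1`, so it misses exactly the shape `˥` with index `j`.
-/

set_option autoImplicit false

namespace Pool.Agent.Results.MP_401231_co.TwoSubdivisionB1VPG

open Pool.Agent.Results.MP_401231_co.NoEvenSubdivisionL

/-- The grid `ℤ²`: two points are joined by a grid edge if they differ by `1` in one coordinate and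
agree in the other one. -/
def grid : SimpleGraph (ℤ × ℤ) where
  Adj a b := (a.1 = b.1 ∧ |a.2 - b.2| = 1) ∨ (a.2 = b.2 ∧ |a.1 - b.1| = 1)
  symm := ⟨fun a b h => by
    rcases h with ⟨h1, h2⟩ | ⟨h1, h2⟩
    · exact Or.inl ⟨h1.symm, by rw [abs_sub_comm]; exact h2⟩
    · exact Or.inr ⟨h1.symm, by rw [abs_sub_comm]; exact h2⟩⟩
  loopless := ⟨fun a h => by
    rcases h with ⟨_, h2⟩ | ⟨_, h2⟩ <;> simp at h2⟩

/-- A grid path: a path in the grid, made of at least one grid edge. -/
structure GridPath where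
  /-- first point -/
  a : ℤ × ℤ
  /-- last point -/
  b : ℤ × ℤ
  /-- the walk from the first to the last point -/
  walk : grid.Walk a b
  /-- no point is repeated -/
  isPath : walk.IsPath
  /-- there is at least one grid edge -/
  pos : 0 < walk.length

/-- The grid edge from the `i`-th to the `(i+1)`-st point of the path is horizontal. -/
def GridPath.Horizontal (P : GridPath) (i : ℕ) : Prop :=
  (P.walk.getVert i).2 = (P.walk.getVert (i + 1)).2

/-- The inner points (by their position on the path) at which the path has a bend: one of the two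
grid edges of the path at this point is horizontal and the other one is not. -/
def GridPath.bends (P : GridPath) : Set ℕ :=
  {i | i + 1 < P.walk.length ∧ ¬ (P.Horizontal i ↔ P.Horizontal (i + 1))}

/-- `H` is a `B₁`-VPG graph: its vertices can be assigned grid paths, each with at most one bend,
such that two distinct vertices are adjacent exactly when their paths share a grid point. -/
def IsB1VPG {W : Type*} (H : SimpleGraph W) : Prop :=
  ∃ P : W → GridPath, (∀ w, (P w).bends.encard ≤ 1) ∧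
    ∀ a b : W, a ≠ b → (H.Adj a b ↔ ∃ z, z ∈ (P a).walk.support ∧ z ∈ (P b).walk.support)

/-! ### Walks from functions -/

/-- The walk `g 0, g 1, …, g n`. -/
def walkOf (g : ℕ → ℤ × ℤ) (hg : ∀ i, grid.Adj (g i) (g (i + 1))) : (n : ℕ) → grid.Walk (g 0) (g n)
  | 0 => SimpleGraph.Walk.nil
  | n + 1 => (walkOf g hg n).concat (hg n)

theorem walkOf_length (g : ℕ → ℤ × ℤ) (hg : ∀ i, grid.Adj (g i) (g (i + 1))) (n : ℕ) :
    (walkOf g hg n).length = n := by
  induction n with
  | zero => rfl
  | succ n ih => rw [walkOf, SimpleGraph.Walk.length_concat, ih]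

theorem walkOf_support (g : ℕ → ℤ × ℤ) (hg : ∀ i, grid.Adj (g i) (g (i + 1))) (n : ℕ) :
    (walkOf g hg n).support = (List.range (n + 1)).map g := by
  induction n with
  | zero => rfl
  | succ n ih =>
    rw [walkOf, SimpleGraph.Walk.support_concat, ih, List.range_succ (n := n + 1), List.map_append]
    simp

theorem walkOf_getVert (g : ℕ → ℤ × ℤ) (hg : ∀ i, grid.Adj (g i) (g (i + 1))) (n i : ℕ)
    (hi : i ≤ n) : (walkOf g hg n).getVert i = g i := by
  have h1 : i < (walkOf g hg n).support.length := by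
    rw [walkOf_support]; simp; omega
  have h2 := SimpleGraph.Walk.support_getElem_eq_getVert (p := walkOf g hg n) (n := i)
    (by rw [walkOf_support]; simp; omega)
  rw [← h2]
  simp only [walkOf_support]
  simp

/-- The grid path `g 0, …, g n` for an injective `g`. -/
def pathOf (g : ℕ → ℤ × ℤ) (hg : ∀ i, grid.Adj (g i) (g (i + 1))) (hinj : Function.Injective g)
    (n : ℕ) (hn : 0 < n) : GridPath where
  a := g 0
  b := g n
  walk := walkOf g hg n
  isPath := by
    rw [SimpleGraph.Walk.isPath_def, walkOf_support]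
    exact List.nodup_range.map hinj
  pos := by rw [walkOf_length]; exact hn

theorem mem_pathOf (g : ℕ → ℤ × ℤ) (hg : ∀ i, grid.Adj (g i) (g (i + 1)))
    (hinj : Function.Injective g) (n : ℕ) (hn : 0 < n) (z : ℤ × ℤ) :
    z ∈ (pathOf g hg hinj n hn).walk.support ↔ ∃ i, i ≤ n ∧ g i = z := by
  show z ∈ (walkOf g hg n).support ↔ _
  rw [walkOf_support, List.mem_map]
  constructor
  · rintro ⟨i, hi, rfl⟩
    rw [List.mem_range] at hi
    exact ⟨i, by omega, rfl⟩
  · rintro ⟨i, hi, rfl⟩
    exact ⟨i, List.mem_range.2 (by omega), rfl⟩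

theorem bends_pathOf (g : ℕ → ℤ × ℤ) (hg : ∀ i, grid.Adj (g i) (g (i + 1)))
    (hinj : Function.Injective g) (n : ℕ) (hn : 0 < n) (p : ℕ)
    (h : ∀ i, i ≠ p → ((g i).2 = (g (i + 1)).2 ↔ (g (i + 1)).2 = (g (i + 2)).2)) :
    (pathOf g hg hinj n hn).bends.encard ≤ 1 := by
  have hsub : (pathOf g hg hinj n hn).bends ⊆ {p} := by
    rintro i ⟨hi, hb⟩
    have hlen : (pathOf g hg hinj n hn).walk.length = n := walkOf_length g hg n
    rw [hlen] at hi
    by_contra hne
    apply hb
    unfold GridPath.Horizontal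
    show ((walkOf g hg n).getVert i).2 = ((walkOf g hg n).getVert (i + 1)).2 ↔
      ((walkOf g hg n).getVert (i + 1)).2 = ((walkOf g hg n).getVert (i + 1 + 1)).2
    rw [walkOf_getVert g hg n i (by omega), walkOf_getVert g hg n (i + 1) (by omega),
      walkOf_getVert g hg n (i + 1 + 1) (by omega)]
    exact h i hne
  calc _ ≤ ({p} : Set ℕ).encard := Set.encard_le_encard hsub
    _ = 1 := Set.encard_singleton p

/-! ### The two kinds of shapes -/

/-- the shape `L`: down from `(x, Y)` to the corner `(x, Y - p)`, then to the right -/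
def gL (x Y : ℤ) (p : ℕ) (i : ℕ) : ℤ × ℤ := (x + ((i - p : ℕ) : ℤ), Y - ((min i p : ℕ) : ℤ))

/-- the shape `˥`: to the right from `(x, Y)` to the corner `(x + p, Y)`, then down -/
def gR (x Y : ℤ) (p : ℕ) (i : ℕ) : ℤ × ℤ := (x + ((min i p : ℕ) : ℤ), Y - ((i - p : ℕ) : ℤ))

theorem gL_adj (x Y : ℤ) (p : ℕ) (i : ℕ) : grid.Adj (gL x Y p i) (gL x Y p (i + 1)) := by
  rcases lt_or_ge i p with h | h
  · left
    refine ⟨?_, ?_⟩
    · simp only [gL]
      have e1 : i - p = 0 := by omega
      have e2 : i + 1 - p = 0 := by omega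
      rw [e1, e2]
    · simp only [gL]
      rw [abs_eq (by norm_num)]
      left
      have e1 : min i p = i := by omega
      have e2 : min (i + 1) p = i + 1 := by omega
      rw [e1, e2]; push_cast; ring
  · right
    refine ⟨?_, ?_⟩
    · simp only [gL]
      have e1 : min i p = p := by omega
      have e2 : min (i + 1) p = p := by omega
      rw [e1, e2]
    · simp only [gL]
      rw [abs_eq (by norm_num)]
      right
      have e2 : i + 1 - p = (i - p) + 1 := by omega
      rw [e2]; push_cast; ring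

theorem gR_adj (x Y : ℤ) (p : ℕ) (i : ℕ) : grid.Adj (gR x Y p i) (gR x Y p (i + 1)) := by
  rcases lt_or_ge i p with h | h
  · right
    refine ⟨?_, ?_⟩
    · simp only [gR]
      have e1 : i - p = 0 := by omega
      have e2 : i + 1 - p = 0 := by omega
      rw [e1, e2]
    · simp only [gR]
      rw [abs_eq (by norm_num)]
      right
      have e1 : min i p = i := by omega
      have e2 : min (i + 1) p = i + 1 := by omega
      rw [e1, e2]; push_cast; ring
  · left
    refine ⟨?_, ?_⟩
    · simp only [gR]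
      have e1 : min i p = p := by omega
      have e2 : min (i + 1) p = p := by omega
      rw [e1, e2]
    · simp only [gR]
      rw [abs_eq (by norm_num)]
      left
      have e2 : i + 1 - p = (i - p) + 1 := by omega
      rw [e2]; push_cast; ring

theorem gL_inj (x Y : ℤ) (p : ℕ) : Function.Injective (gL x Y p) := by
  intro i j h
  simp only [gL, Prod.mk.injEq] at h
  omega

theorem gR_inj (x Y : ℤ) (p : ℕ) : Function.Injective (gR x Y p) := by
  intro i j h
  simp only [gR, Prod.mk.injEq] at h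
  omega

/-- The path of shape `L` with corner `(x, y)`, upper end `(x, y + p)` and right end
`(x + q, y)`. -/
def pL (x y : ℤ) (p q : ℕ) (h : 0 < p + q) : GridPath :=
  pathOf (gL x (y + p) p) (gL_adj x (y + p) p) (gL_inj x (y + p) p) (p + q) h

/-- The path of shape `˥` with corner `(x, y)`, left end `(x - p, y)` and lower end
`(x, y - q)`. -/
def pR (x y : ℤ) (p q : ℕ) (h : 0 < p + q) : GridPath :=
  pathOf (gR (x - p) y p) (gR_adj (x - p) y p) (gR_inj (x - p) y p) (p + q) h

theorem mem_pL (x y : ℤ) (p q : ℕ) (h : 0 < p + q) (z : ℤ × ℤ) :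
    z ∈ (pL x y p q h).walk.support ↔
      (z.1 = x ∧ y ≤ z.2 ∧ z.2 ≤ y + p) ∨ (z.2 = y ∧ x ≤ z.1 ∧ z.1 ≤ x + q) := by
  unfold pL
  rw [mem_pathOf]
  obtain ⟨z1, z2⟩ := z
  simp only [gL, Prod.mk.injEq]
  constructor
  · rintro ⟨i, hi, h1, h2⟩
    omega
  · rintro (⟨h1, h2, h3⟩ | ⟨h1, h2, h3⟩)
    · exact ⟨(y + p - z2).toNat, by omega, by omega, by omega⟩
    · exact ⟨p + (z1 - x).toNat, by omega, by omega, by omega⟩

theorem mem_pR (x y : ℤ) (p q : ℕ) (h : 0 < p + q) (z : ℤ × ℤ) :
    z ∈ (pR x y p q h).walk.support ↔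
      (z.2 = y ∧ x - p ≤ z.1 ∧ z.1 ≤ x) ∨ (z.1 = x ∧ y - q ≤ z.2 ∧ z.2 ≤ y) := by
  unfold pR
  rw [mem_pathOf]
  obtain ⟨z1, z2⟩ := z
  simp only [gR, Prod.mk.injEq]
  constructor
  · rintro ⟨i, hi, h1, h2⟩
    omega
  · rintro (⟨h1, h2, h3⟩ | ⟨h1, h2, h3⟩)
    · exact ⟨(z1 - (x - p)).toNat, by omega, by omega, by omega⟩
    · exact ⟨p + (y - z2).toNat, by omega, by omega, by omega⟩

theorem bends_pL (x y : ℤ) (p q : ℕ) (h : 0 < p + q) : (pL x y p q h).bends.encard ≤ 1 := by
  refine bends_pathOf _ _ _ _ _ (p - 1) ?_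
  intro i hi
  simp only [gL]
  omega

theorem bends_pR (x y : ℤ) (p q : ℕ) (h : 0 < p + q) : (pR x y p q h).bends.encard ≤ 1 := by
  refine bends_pathOf _ _ _ _ _ (p - 1) ?_
  intro i hi
  simp only [gR]
  omega

/-! ### The 2-subdivision -/

section Sub

variable {V : Type} (G : SimpleGraph V)

/-- The 2-subdivision of `G`: every edge `uv` is replaced by the path `u, (u,v), (v,u), v`. -/
def sub2 : SimpleGraph (V ⊕ G.Dart) where
  Adj a b := match a, b with
    | .inl _, .inl _ => False
    | .inl u, .inr d => d.fst = u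
    | .inr d, .inl u => d.fst = u
    | .inr d, .inr d' => d' = d.symm
  symm := ⟨fun a b h => by
    cases a <;> cases b <;> simp_all⟩
  loopless := ⟨fun a h => by
    cases a with
    | inl u => exact h
    | inr d => exact d.symm_ne h.symm⟩

theorem adj1 (u v : V) (h : G.Adj u v) :
    (sub2 G).Adj (Sum.inl u) (Sum.inr ⟨(u, v), h⟩) := rfl

theorem adj2 (u v : V) (h : G.Adj u v) :
    (sub2 G).Adj (Sum.inr ⟨(u, v), h⟩) (Sum.inr ⟨(v, u), h.symm⟩) := rfl

theorem adj3 (u v : V) (h : G.Adj u v) :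
    (sub2 G).Adj (Sum.inr ⟨(u, v), h⟩) (Sum.inl u) := rfl

/-- the path replacing an edge -/
def pth (u v : V) (h : G.Adj u v) : (sub2 G).Walk (Sum.inl u) (Sum.inl v) :=
  .cons (adj1 G u v h) (.cons (adj2 G u v h) (.cons (adj3 G v u h.symm) .nil))

theorem pth_support (u v : V) (h : G.Adj u v) : (pth G u v h).support =
    [Sum.inl u, Sum.inr ⟨(u, v), h⟩, Sum.inr ⟨(v, u), h.symm⟩, Sum.inl v] := rfl

theorem sub2_even : IsEvenSubdivision G (sub2 G) := by
  refine ⟨Sum.inl, pth G, Sum.inl_injective, ?_, ?_, ?_, ?_, ?_, ?_⟩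
  · intro u v h
    refine ⟨?_, ?_⟩
    · rw [SimpleGraph.Walk.isPath_def, pth_support]
      have hne := h.ne
      have hne' := h.ne'
      simp [hne]
    · show Odd 3
      decide
  · intro u v h
    rfl
  · intro u v h x hx
    rw [pth_support] at hx
    simpa using hx
  · intro u v h u' v' h' w hw hw'
    rw [pth_support] at hw hw'
    cases w with
    | inl x => exact Or.inl ⟨x, rfl⟩
    | inr d =>
      right
      have e1 : d.edge = s(u, v) := by
        simp only [List.mem_cons, reduceCtorEq, Sum.inr.injEq, List.not_mem_nil, or_false,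
          false_or] at hw
        rcases hw with rfl | rfl
        · rfl
        · exact Sym2.eq_swap
      have e2 : d.edge = s(u', v') := by
        simp only [List.mem_cons, reduceCtorEq, Sum.inr.injEq, List.not_mem_nil, or_false,
          false_or] at hw'
        rcases hw' with rfl | rfl
        · rfl
        · exact Sym2.eq_swap
      rw [← e1, e2]
  · intro w
    cases w with
    | inl x => exact Or.inl ⟨x, rfl⟩
    | inr d =>
      right
      refine ⟨d.fst, d.snd, d.adj, ?_⟩
      rw [pth_support]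
      simp
  · intro e he
    induction e using Sym2.ind with
    | _ a b =>
      rw [SimpleGraph.mem_edgeSet] at he
      cases a with
      | inl u =>
        cases b with
        | inl v => exact he.elim
        | inr d =>
          have hd : d.fst = u := he
          subst hd
          refine ⟨d.fst, d.snd, d.adj, ?_⟩
          simp [pth]
      | inr d =>
        cases b with
        | inl v =>
          have hd : d.fst = v := he
          subst hd
          refine ⟨d.fst, d.snd, d.adj, ?_⟩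
          simp [pth]
        | inr d' =>
          have hd : d' = d.symm := he
          subst hd
          refine ⟨d.fst, d.snd, d.adj, ?_⟩
          simp only [pth, SimpleGraph.Walk.edges_cons, SimpleGraph.Walk.edges_nil,
            List.mem_cons]
          right
          left
          rfl

/-! ### The representation -/

/-- The shapes that represent the complement of the 2-subdivision: `B` is a bound for the indices
`ι` of the vertices and `κ` of the edges. -/
noncomputable def shape (ι : V → ℕ) (κ : G.Dart → ℕ) (B : ℕ) : V ⊕ G.Dart → GridPath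
  | .inl v => pR (10 * B + 10 + 2 * ι v) (10 * B + 10 - 2 * ι v) (10 * B + 10 + 2 * ι v)
      (20 * B + 20) (by omega)
  | .inr d => if ι d.fst < ι d.snd then
      pL (3 * κ d) (-(3 * κ d)) (10 * B + 9 - 2 * ι d.fst + 3 * κ d)
        (10 * B + 9 + 2 * ι d.fst - 3 * κ d) (by omega)
    else
      pL (3 * κ d + 1) (-(3 * κ d) + 1) (10 * B + 8 - 2 * ι d.fst + 3 * κ d)
        (10 * B + 8 + 2 * ι d.fst - 3 * κ d) (by omega)

variable {G}

theorem mem_inl (ι : V → ℕ) (κ : G.Dart → ℕ) (B : ℕ) (v : V) (hv : ι v ≤ B) (z : ℤ × ℤ) :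
    z ∈ (shape G ι κ B (.inl v)).walk.support ↔
      (z.2 = 10 * B + 10 - 2 * ι v ∧ 0 ≤ z.1 ∧ z.1 ≤ 10 * B + 10 + 2 * ι v) ∨
      (z.1 = 10 * B + 10 + 2 * ι v ∧ -(10 * B) - 10 - 2 * ι v ≤ z.2 ∧
        z.2 ≤ 10 * B + 10 - 2 * ι v) := by
  unfold shape
  rw [mem_pR]
  push_cast
  constructor <;> rintro (h | h) <;> omega

/-- the offset of the corner of the `L` of a dart -/
noncomputable def off (ι : V → ℕ) (d : G.Dart) : ℕ := if ι d.fst < ι d.snd then 0 else 1

theorem mem_inr (ι : V → ℕ) (κ : G.Dart → ℕ) (B : ℕ) (d : G.Dart) (hv : ι d.fst ≤ B)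
    (hd : κ d ≤ B) (z : ℤ × ℤ) :
    z ∈ (shape G ι κ B (.inr d)).walk.support ↔
      (z.1 = 3 * κ d + off ι d ∧ -(3 * κ d) + off ι d ≤ z.2 ∧
        z.2 ≤ 10 * B + 9 - 2 * ι d.fst) ∨
      (z.2 = -(3 * κ d) + off ι d ∧ 3 * κ d + off ι d ≤ z.1 ∧
        z.1 ≤ 10 * B + 9 + 2 * ι d.fst) := by
  have ho : off ι d = if ι d.fst < ι d.snd then 0 else 1 := rfl
  by_cases h : ι d.fst < ι d.snd
  · rw [if_pos h] at ho
    have hs : shape G ι κ B (.inr d) = pL (3 * κ d) (-(3 * κ d)) (10 * B + 9 - 2 * ι d.fst + 3 * κ d)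
        (10 * B + 9 + 2 * ι d.fst - 3 * κ d) (by omega) := by
      unfold shape
      simp only
      rw [if_pos h]
    rw [hs, mem_pL, ho]
    omega
  · rw [if_neg h] at ho
    have hs : shape G ι κ B (.inr d) = pL (3 * κ d + 1) (-(3 * κ d) + 1)
        (10 * B + 8 - 2 * ι d.fst + 3 * κ d)
        (10 * B + 8 + 2 * ι d.fst - 3 * κ d) (by omega) := by
      unfold shape
      simp only
      rw [if_neg h]
    rw [hs, mem_pL, ho]
    omega

theorem off_le (ι : V → ℕ) (d : G.Dart) : off ι d ≤ 1 := by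
  unfold off; split <;> omega

theorem bends_shape (ι : V → ℕ) (κ : G.Dart → ℕ) (B : ℕ) (w : V ⊕ G.Dart) :
    (shape G ι κ B w).bends.encard ≤ 1 := by
  cases w with
  | inl v => exact bends_pR _ _ _ _ _
  | inr d =>
    unfold shape
    simp only
    split
    · exact bends_pL _ _ _ _ _
    · exact bends_pL _ _ _ _ _

theorem inl_inl (ι : V → ℕ) (κ : G.Dart → ℕ) (B : ℕ) (hι : ∀ v, ι v ≤ B) (u v : V)
    (h : ι u < ι v) : ∃ z, z ∈ (shape G ι κ B (.inl u)).walk.support ∧
      z ∈ (shape G ι κ B (.inl v)).walk.support := by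
  have hu := hι u
  have hv := hι v
  refine ⟨(10 * B + 10 + 2 * ι u, 10 * B + 10 - 2 * ι v), ?_, ?_⟩
  · rw [mem_inl ι κ B u hu]
    right
    refine ⟨rfl, ?_, ?_⟩ <;> dsimp only <;> omega
  · rw [mem_inl ι κ B v hv]
    left
    refine ⟨rfl, ?_, ?_⟩ <;> dsimp only <;> omega

theorem inl_inr (ι : V → ℕ) (κ : G.Dart → ℕ) (B : ℕ) (hinj : Function.Injective ι)
    (hι : ∀ v, ι v ≤ B) (hκ : ∀ d, κ d ≤ B) (u : V) (d : G.Dart) :
    (∃ z, z ∈ (shape G ι κ B (.inl u)).walk.support ∧
      z ∈ (shape G ι κ B (.inr d)).walk.support) ↔ d.fst ≠ u := by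
  have hu := hι u
  have hv := hι d.fst
  have hd := hκ d
  have ho := off_le ι d
  constructor
  · rintro ⟨z, h1, h2⟩ he
    subst he
    rw [mem_inl ι κ B _ hu] at h1
    rw [mem_inr ι κ B d hv hd] at h2
    omega
  · intro hne
    have hne' : ι d.fst ≠ ι u := fun h => hne (hinj h)
    rcases lt_or_gt_of_ne hne' with h | h
    · refine ⟨(3 * κ d + off ι d, 10 * B + 10 - 2 * ι u), ?_, ?_⟩
      · rw [mem_inl ι κ B u hu]
        left
        refine ⟨rfl, ?_, ?_⟩ <;> dsimp only <;> omega
      · rw [mem_inr ι κ B d hv hd]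
        left
        refine ⟨rfl, ?_, ?_⟩ <;> dsimp only <;> omega
    · refine ⟨(10 * B + 10 + 2 * ι u, -(3 * κ d) + off ι d), ?_, ?_⟩
      · rw [mem_inl ι κ B u hu]
        right
        refine ⟨rfl, ?_, ?_⟩ <;> dsimp only <;> omega
      · rw [mem_inr ι κ B d hv hd]
        right
        refine ⟨rfl, ?_, ?_⟩ <;> dsimp only <;> omega

theorem inr_inr_lt (ι : V → ℕ) (κ : G.Dart → ℕ) (B : ℕ) (hι : ∀ v, ι v ≤ B)
    (hκ : ∀ d, κ d ≤ B) (d d' : G.Dart) (h : κ d < κ d') :
    ∃ z, z ∈ (shape G ι κ B (.inr d)).walk.support ∧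
      z ∈ (shape G ι κ B (.inr d')).walk.support := by
  have hv := hι d.fst
  have hd := hκ d
  have ho := off_le ι d
  have hv' := hι d'.fst
  have hd' := hκ d'
  have ho' := off_le ι d'
  refine ⟨(3 * κ d' + off ι d', -(3 * κ d) + off ι d), ?_, ?_⟩
  · rw [mem_inr ι κ B d hv hd]
    right
    refine ⟨rfl, ?_, ?_⟩ <;> dsimp only <;> omega
  · rw [mem_inr ι κ B d' hv' hd']
    left
    refine ⟨rfl, ?_, ?_⟩ <;> dsimp only <;> omega

theorem inr_symm (ι : V → ℕ) (κ : G.Dart → ℕ) (B : ℕ) (hinj : Function.Injective ι)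
    (hι : ∀ v, ι v ≤ B) (hκ : ∀ d, κ d ≤ B) (hs : ∀ d, κ d.symm = κ d) (d : G.Dart) :
    ¬ ∃ z, z ∈ (shape G ι κ B (.inr d)).walk.support ∧
      z ∈ (shape G ι κ B (.inr d.symm)).walk.support := by
  rintro ⟨z, h1, h2⟩
  have hne : ι d.fst ≠ ι d.snd := fun h => d.adj.ne (hinj h)
  rw [mem_inr ι κ B d (hι _) (hκ _)] at h1
  rw [mem_inr ι κ B d.symm (hι _) (hκ _), hs] at h2
  have hb1 := hι d.fst
  have hb2 := hι d.snd
  have hd := hκ d
  have e1 : d.symm.fst = d.snd := rfl
  have e2 : d.symm.snd = d.fst := rfl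
  unfold off at h1 h2
  rw [e1, e2] at h2
  split_ifs at h1 h2 <;> omega

theorem represents (ι : V → ℕ) (κ : G.Dart → ℕ) (B : ℕ) (hinj : Function.Injective ι)
    (hι : ∀ v, ι v ≤ B) (hκ : ∀ d, κ d ≤ B) (hs : ∀ d, κ d.symm = κ d)
    (hk : ∀ d d', κ d = κ d' → d' = d ∨ d' = d.symm) : IsB1VPG (sub2 G)ᶜ := by
  refine ⟨shape G ι κ B, bends_shape ι κ B, ?_⟩
  intro a b hab
  rw [SimpleGraph.compl_adj]
  have comm : ∀ a b : V ⊕ G.Dart, (∃ z, z ∈ (shape G ι κ B a).walk.support ∧
      z ∈ (shape G ι κ B b).walk.support) ↔ (∃ z, z ∈ (shape G ι κ B b).walk.support ∧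
      z ∈ (shape G ι κ B a).walk.support) := fun a b =>
    ⟨fun ⟨z, h1, h2⟩ => ⟨z, h2, h1⟩, fun ⟨z, h1, h2⟩ => ⟨z, h2, h1⟩⟩
  cases a with
  | inl u =>
    cases b with
    | inl v =>
      have huv : u ≠ v := fun h => hab (by rw [h])
      have hne : ι u ≠ ι v := fun h => huv (hinj h)
      refine ⟨fun _ => ?_, fun _ => ⟨hab, fun h => h⟩⟩
      rcases lt_or_gt_of_ne hne with h | h
      · exact inl_inl ι κ B hι u v h
      · exact (comm _ _).1 (inl_inl ι κ B hι v u h)
    | inr d =>
      rw [inl_inr ι κ B hinj hι hκ]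
      exact ⟨fun h => h.2, fun h => ⟨hab, h⟩⟩
  | inr d =>
    cases b with
    | inl u =>
      rw [comm, inl_inr ι κ B hinj hι hκ]
      exact ⟨fun h => h.2, fun h => ⟨hab, h⟩⟩
    | inr d' =>
      constructor
      · rintro ⟨_, h⟩
        have h' : d' ≠ d.symm := h
        have hdd : d ≠ d' := fun e => hab (by rw [e])
        have hne : κ d ≠ κ d' := by
          intro e
          rcases hk d d' e with e' | e'
          · exact hdd e'.symm
          · exact h' e'
        rcases lt_or_gt_of_ne hne with h3 | h3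
        · exact inr_inr_lt ι κ B hι hκ d d' h3
        · exact (comm _ _).1 (inr_inr_lt ι κ B hι hκ d' d h3)
      · intro hz
        refine ⟨hab, ?_⟩
        intro h
        have h' : d' = d.symm := h
        subst h'
        exact inr_symm ι κ B hinj hι hκ hs d hz

end Sub

/-- **Positive answer to Q2, for all finite graphs.** Every finite graph `G` (planar or not) has an
even subdivision `G'` (every edge is replaced by a path with exactly two inner vertices) whose
complement is a `B₁`-VPG graph. -/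
theorem result (V : Type) [Finite V] (G : SimpleGraph V) :
    ∃ (W : Type) (_ : Finite W) (G' : SimpleGraph W), IsEvenSubdivision G G' ∧ IsB1VPG G'ᶜ := by
  classical
  obtain ⟨n, ⟨e⟩⟩ := Finite.exists_equiv_fin V
  let ι : V → ℕ := fun v => (e v : ℕ)
  have hinj : Function.Injective ι := fun u v h => e.injective (Fin.ext h)
  let κ : G.Dart → ℕ := fun d => Nat.pair (min (ι d.fst) (ι d.snd)) (max (ι d.fst) (ι d.snd))
  have : Fintype V := Fintype.ofFinite V
  have : Finite (V ⊕ G.Dart) := inferInstance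
  obtain ⟨B1, hB1⟩ : ∃ B, ∀ v, ι v ≤ B := ⟨n, fun v => (e v).2.le⟩
  obtain ⟨B2, hB2⟩ : ∃ B, ∀ d, κ d ≤ B := by
    obtain ⟨B, hB⟩ := (Set.finite_range κ).bddAbove
    exact ⟨B, fun d => hB ⟨d, rfl⟩⟩
  refine ⟨V ⊕ G.Dart, inferInstance, sub2 G, sub2_even G,
    represents ι κ (max B1 B2) hinj (fun v => le_max_of_le_left (hB1 v))
      (fun d => le_max_of_le_right (hB2 d)) ?_ ?_⟩
  · intro d
    show Nat.pair (min (ι d.snd) (ι d.fst)) (max (ι d.snd) (ι d.fst)) = _
    rw [min_comm, max_comm]
  · intro d d' h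
    have h' := Nat.pair_eq_pair.1 h
    obtain ⟨h1, h2⟩ := h'
    have hc : (ι d'.fst = ι d.fst ∧ ι d'.snd = ι d.snd) ∨
        (ι d'.fst = ι d.snd ∧ ι d'.snd = ι d.fst) := by omega
    rcases hc with ⟨h3, h4⟩ | ⟨h3, h4⟩
    · left
      exact SimpleGraph.Dart.ext _ _ (Prod.ext (hinj h3) (hinj h4))
    · right
      exact SimpleGraph.Dart.ext _ _ (Prod.ext (hinj h3) (hinj h4))

end Pool.Agent.Results.MP_401231_co.TwoSubdivisionB1VPG
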